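import Pool.Agent.Helper42.TG.Defs
import Pool.Agent.Helper19.TN.EndC

/-!
# Project TG (MP_a41896_nt): integer combinations, heights of combinations
-/

set_option autoImplicit false

open MvPolynomial

namespace Pool.Agent.Helper19.TG

open WeierstrassCurve Height
open Pool.Agent.Helper29.BL
open Pool.Agent.Helper92.Ru hiding cmb
open Pool.Agent.Helper42.SG
open Pool.Agent.Helper60.HC (Lo nrs xs)
open Pool.Agent.Helper42.TG (cmb TFam slowP Free)

noncomputable section

section cmb

variable {ι τ : Type} [DecidableEq ι] [Fintype τ] {M M' : ι → Type} [∀ c, AddCommGroup (M c)]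
  [∀ c, AddCommGroup (M' c)]

theorem cmb_map (cl : τ → ι) (φ : ∀ c, M c →+ M' c) (w : ∀ j, M (cl j)) (c : ι) (n : τ → ℤ) :
    φ c (cmb cl w c n) = cmb cl (fun j => φ (cl j) (w j)) c n := by
  unfold cmb
  rw [map_sum]
  refine Finset.sum_congr rfl fun j _ => ?_
  split_ifs with h
  · subst h
    exact map_zsmul _ _ _
  · exact map_zero _

theorem cmb_zero (cl : τ → ι) (w : ∀ j, M (cl j)) (c : ι) : cmb cl w c 0 = 0 := by
  unfold cmb
  refine Finset.sum_eq_zero fun j _ => ?_
  split_ifs with h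
  · simp
  · rfl

theorem cmb_add (cl : τ → ι) (w : ∀ j, M (cl j)) (c : ι) (n n' : τ → ℤ) :
    cmb cl w c (n + n') = cmb cl w c n + cmb cl w c n' := by
  unfold cmb
  rw [← Finset.sum_add_distrib]
  refine Finset.sum_congr rfl fun j _ => ?_
  split_ifs with h
  · rw [Pi.add_apply, add_smul]
  · rw [add_zero]

theorem cmb_neg (cl : τ → ι) (w : ∀ j, M (cl j)) (c : ι) (n : τ → ℤ) :
    cmb cl w c (-n) = - cmb cl w c n := by
  have h := cmb_add cl w c n (-n)
  rw [add_neg_cancel, cmb_zero] at h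
  exact (neg_eq_of_add_eq_zero_right h.symm).symm

theorem cmb_mem (cl : τ → ι) (S : ∀ c, AddSubgroup (M c)) (w : ∀ j, M (cl j))
    (hw : ∀ j, w j ∈ S (cl j)) (c : ι) (n : τ → ℤ) : cmb cl w c n ∈ S c := by
  unfold cmb
  refine AddSubgroup.sum_mem _ fun j _ => ?_
  split_ifs with h
  · subst h
    exact AddSubgroup.zsmul_mem _ (hw j) _
  · exact AddSubgroup.zero_mem _

theorem cmb_single [DecidableEq τ] (cl : τ → ι) (w : ∀ j, M (cl j)) (j : τ) (m : ℤ) :
    cmb cl w (cl j) (Pi.single j m) = m • w j := by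
  unfold cmb
  rw [Finset.sum_eq_single j]
  · rw [dif_pos rfl, Pi.single_eq_same]
  · intro i _ hij
    split_ifs with h
    · rw [Pi.single_eq_of_ne hij, zero_smul]
    · rfl
  · intro h
    exact absurd (Finset.mem_univ _) h

/-- the members of a totally fast family are not in `C` -/
theorem TFam.single_notMem [DecidableEq τ] {C : ∀ c, Set (M c)} {cl : τ → ι} {w : ∀ j, M (cl j)}
    (h : TFam C cl w) (j : τ) : w j ∉ C (cl j) := by
  have h1 := h (cl j) (Pi.single j 1) ⟨j, rfl, by simp⟩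
  rwa [cmb_single, one_smul] at h1

/-- a combination of a subfamily -/
theorem cmb_sub {τ' : Type} [Fintype τ'] (f : τ' → τ) (hf : Function.Injective f) (cl : τ → ι)
    (w : ∀ j, M (cl j)) (c : ι) (n : τ' → ℤ) :
    cmb (fun j => cl (f j)) (fun j => w (f j)) c n =
      cmb cl w c (fun i => by
        classical
        exact if h : ∃ j, f j = i then n h.choose else 0) := by
  classical
  unfold cmb
  have h1 : ∀ j : τ', (if h : ∃ j', f j' = f j then n h.choose else 0) = n j := by
    intro j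
    have h : ∃ j', f j' = f j := ⟨j, rfl⟩
    rw [dif_pos h, hf h.choose_spec]
  rw [← Finset.sum_subset (Finset.subset_univ (Finset.univ.map ⟨f, hf⟩))]
  · rw [Finset.sum_map]
    refine Finset.sum_congr rfl fun j _ => ?_
    dsimp only [Function.Embedding.coeFn_mk]
    rw [h1]
  · intro i _ hi
    have h2 : ¬ ∃ j, f j = i := by
      rintro ⟨j, rfl⟩
      exact hi (Finset.mem_map.2 ⟨j, Finset.mem_univ j, rfl⟩)
    have h3 : (if h : ∃ j, f j = i then n h.choose else 0) = 0 := dif_neg h2
    dsimp only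
    rw [h3]
    split_ifs
    · rw [zero_smul]
    · rfl

/-- a subfamily of a totally fast family is totally fast -/
theorem TFam.sub {C : ∀ c, Set (M c)} {cl : τ → ι} {w : ∀ j, M (cl j)} (h : TFam C cl w)
    {τ' : Type} [Fintype τ'] (f : τ' → τ) (hf : Function.Injective f) :
    TFam C (fun j => cl (f j)) (fun j => w (f j)) := by
  classical
  rintro c n ⟨j, hj, hn⟩
  rw [cmb_sub f hf]
  refine h c _ ⟨f j, hj, ?_⟩
  have h' : ∃ j', f j' = f j := ⟨j, rfl⟩
  rw [dif_pos h', hf h'.choose_spec]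
  exact hn

end cmb

section heights

variable {K : Type} [Field K] [DecidableEq K] {ι : Type} [DecidableEq ι]
  {E : ι → Affine K} {σ : Type} [Fintype σ] (cl : σ → ι)

theorem sqrt_sum_le {G : Type} [AddCommGroup G] {H : G → ℝ} (hH : IsQuad H) {α : Type}
    (s : Finset α) (f : α → G) : √(H (∑ a ∈ s, f a)) ≤ ∑ a ∈ s, √(H (f a)) := by
  classical
  obtain ⟨h0, -, -, h3⟩ := Pool.Agent.Helper29.BL.qsn G H hH
  induction s using Finset.induction_on with
  | empty => simp [h0]
  | insert a s ha ih =>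
    rw [Finset.sum_insert ha, Finset.sum_insert ha]
    exact (h3 _ _).trans (by linarith)

/-- the height of an integer combination -/
theorem H_cmb {H : ∀ c, (E c).Point → ℝ} (hH : ∀ c, IsQuad (H c)) (z : ∀ i, (E (cl i)).Point)
    (c : ι) (n : σ → ℤ) :
    H c (cmb (M := fun c => (E c).Point) cl z c n) ≤
      (∑ i, |(n i : ℝ)|) ^ 2 * nrs (W := fun i => E (cl i)) (fun i => H (cl i)) z := by
  set N := nrs (W := fun i => E (cl i)) (fun i => H (cl i)) z with hN
  have hN0 : 0 ≤ N := Finset.sum_nonneg fun i _ => (hH _).nonneg _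
  have hi : ∀ i, H (cl i) (z i) ≤ N := fun i =>
    Finset.single_le_sum (f := fun i => H (cl i) (z i)) (fun j _ => (hH _).nonneg _)
      (Finset.mem_univ i)
  have h1 : √(H c (cmb (M := fun c => (E c).Point) cl z c n)) ≤ (∑ i, |(n i : ℝ)|) * √N := by
    unfold cmb
    refine (sqrt_sum_le (hH c) _ _).trans ?_
    rw [Finset.sum_mul]
    refine Finset.sum_le_sum fun i _ => ?_
    split_ifs with h
    · subst h
      obtain ⟨-, -, h2, -⟩ := Pool.Agent.Helper29.BL.qsn _ _ (hH (cl i))
      rw [h2, Real.sqrt_mul (sq_nonneg _), Real.sqrt_sq_eq_abs]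
      exact mul_le_mul_of_nonneg_left (Real.sqrt_le_sqrt (hi i)) (abs_nonneg _)
    · obtain ⟨h0, -, -, -⟩ := Pool.Agent.Helper29.BL.qsn _ _ (hH c)
      rw [h0, Real.sqrt_zero]
      positivity
  have h2 : H c (cmb (M := fun c => (E c).Point) cl z c n) =
      √(H c (cmb (M := fun c => (E c).Point) cl z c n)) ^ 2 :=
    (Real.sq_sqrt ((hH c).nonneg _)).symm
  rw [h2]
  refine (pow_le_pow_left₀ (Real.sqrt_nonneg _) h1 2).trans (le_of_eq ?_)
  rw [mul_pow, Real.sq_sqrt hN0]

end heights

end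

end Pool.Agent.Helper19.TG
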