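import Pool.Agent.Helper42.TG.DefsR
import Pool.Agent.Helper19.TN.EndC
import Pool.Agent.Helper19.TG.Cmb

/-!
# Project TG (MP_a41896_nt): combinations with coefficients in rings which act on the points
-/

set_option autoImplicit false

open MvPolynomial

namespace Pool.Agent.Helper19.TG

open WeierstrassCurve Height
open Pool.Agent.Helper29.BL
open Pool.Agent.Helper92.Ru hiding cmb
open Pool.Agent.Helper42.SG
open Pool.Agent.Helper60.HC (Lo nrs xs)
open Pool.Agent.Helper42.TG (cmb TFam cmbR TFamR slowP Free)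

noncomputable section

section cmb

variable {ι τ : Type} [DecidableEq ι] [Fintype τ] {R M M' : ι → Type} [∀ c, CommRing (R c)]
  [∀ c, AddCommGroup (M c)] [∀ c, AddCommGroup (M' c)] (ac : ∀ c, R c →+* AddMonoid.End (M c))
  (ac' : ∀ c, R c →+* AddMonoid.End (M' c))

theorem cmbR_map (cl : τ → ι) (φ : ∀ c, M c →+ M' c)
    (hφ : ∀ c ρ P, φ c (ac c ρ P) = ac' c ρ (φ c P)) (w : ∀ j, M (cl j)) (c : ι) (n : τ → R c) :
    φ c (cmbR ac cl w c n) = cmbR ac' cl (fun j => φ (cl j) (w j)) c n := by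
  unfold cmbR
  rw [map_sum]
  refine Finset.sum_congr rfl fun j _ => ?_
  split_ifs with h
  · subst h
    exact hφ _ _ _
  · exact map_zero _

theorem cmbR_zero (cl : τ → ι) (w : ∀ j, M (cl j)) (c : ι) : cmbR ac cl w c 0 = 0 := by
  unfold cmbR
  refine Finset.sum_eq_zero fun j _ => ?_
  split_ifs with h
  · rw [Pi.zero_apply, map_zero]
    rfl
  · rfl

theorem cmbR_add (cl : τ → ι) (w : ∀ j, M (cl j)) (c : ι) (n n' : τ → R c) :
    cmbR ac cl w c (n + n') = cmbR ac cl w c n + cmbR ac cl w c n' := by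
  unfold cmbR
  rw [← Finset.sum_add_distrib]
  refine Finset.sum_congr rfl fun j _ => ?_
  split_ifs with h
  · rw [Pi.add_apply, map_add]
    rfl
  · rw [add_zero]

theorem cmbR_smul (cl : τ → ι) (w : ∀ j, M (cl j)) (c : ι) (ρ : R c) (n : τ → R c) :
    cmbR ac cl w c (ρ • n) = ac c ρ (cmbR ac cl w c n) := by
  unfold cmbR
  rw [map_sum]
  refine Finset.sum_congr rfl fun j _ => ?_
  split_ifs with h
  · rw [Pi.smul_apply, smul_eq_mul, map_mul]
    rfl
  · exact (map_zero _).symm

/-- the set of the combinations -/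
def Adm (cl : τ → ι) (w : ∀ j, M (cl j)) (c : ι) : AddSubgroup (M c) where
  carrier := {P | ∃ n : τ → R c, P = cmbR ac cl w c n}
  zero_mem' := ⟨0, (cmbR_zero ac cl w c).symm⟩
  add_mem' := by
    rintro _ _ ⟨n, rfl⟩ ⟨n', rfl⟩
    exact ⟨n + n', (cmbR_add ac cl w c n n').symm⟩
  neg_mem' := by
    rintro _ ⟨n, rfl⟩
    refine ⟨-n, ?_⟩
    have h := cmbR_add ac cl w c n (-n)
    rw [add_neg_cancel, cmbR_zero] at h
    exact neg_eq_of_add_eq_zero_right h.symm

theorem mem_Adm {cl : τ → ι} {w : ∀ j, M (cl j)} {c : ι} {P : M c} :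
    P ∈ Adm ac cl w c ↔ ∃ n : τ → R c, P = cmbR ac cl w c n := Iff.rfl

theorem Adm_ac {cl : τ → ι} {w : ∀ j, M (cl j)} {c : ι} {P : M c} (h : P ∈ Adm ac cl w c)
    (ρ : R c) : ac c ρ P ∈ Adm ac cl w c := by
  obtain ⟨n, rfl⟩ := h
  exact ⟨ρ • n, (cmbR_smul ac cl w c ρ n).symm⟩

theorem cmbR_mem {τ' : Type} [Fintype τ'] (cl : τ → ι) (w : ∀ j, M (cl j)) (cl' : τ' → ι)
    (w' : ∀ j, M (cl' j)) (hw : ∀ j, w' j ∈ Adm ac cl w (cl' j)) (c : ι) (n : τ' → R c) :
    cmbR ac cl' w' c n ∈ Adm ac cl w c := by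
  unfold cmbR
  refine AddSubgroup.sum_mem _ fun j _ => ?_
  split_ifs with h
  · subst h
    exact Adm_ac ac (hw j) _
  · exact AddSubgroup.zero_mem _

theorem cmbR_single [DecidableEq τ] (cl : τ → ι) (w : ∀ j, M (cl j)) (j : τ) (m : R (cl j)) :
    cmbR ac cl w (cl j) (Pi.single j m) = ac (cl j) m (w j) := by
  unfold cmbR
  rw [Finset.sum_eq_single j]
  · rw [dif_pos rfl, Pi.single_eq_same]
  · intro i _ hij
    split_ifs with h
    · rw [Pi.single_eq_of_ne hij, map_zero]
      rfl
    · rfl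
  · intro h
    exact absurd (Finset.mem_univ _) h

theorem mem_Adm_self [DecidableEq τ] (cl : τ → ι) (w : ∀ j, M (cl j)) (j : τ) :
    w j ∈ Adm ac cl w (cl j) := by
  refine ⟨Pi.single j 1, ?_⟩
  rw [cmbR_single, map_one]
  rfl

variable {ac}

/-- the members of a totally fast family are not in `C` -/
theorem TFamR.single_notMem [DecidableEq τ] [∀ c, Nontrivial (R c)] {C : ∀ c, Set (M c)}
    {cl : τ → ι} {w : ∀ j, M (cl j)} (h : TFamR ac C cl w) (j : τ) : w j ∉ C (cl j) := by
  have h1 := h (cl j) (Pi.single j 1) ⟨j, rfl, by simp⟩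
  rw [cmbR_single, map_one] at h1
  exact h1

/-- a combination of a subfamily -/
theorem cmbR_sub {τ' : Type} [Fintype τ'] (f : τ' → τ) (hf : Function.Injective f) (cl : τ → ι)
    (w : ∀ j, M (cl j)) (c : ι) (n : τ' → R c) :
    cmbR ac (fun j => cl (f j)) (fun j => w (f j)) c n =
      cmbR ac cl w c (fun i => by
        classical
        exact if h : ∃ j, f j = i then n h.choose else 0) := by
  classical
  unfold cmbR
  have h1 : ∀ j : τ', (if h : ∃ j', f j' = f j then n h.choose else 0) = n j := by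
    intro j
    have h : ∃ j', f j' = f j := ⟨j, rfl⟩
    rw [dif_pos h, hf h.choose_spec]
  rw [← Finset.sum_subset (Finset.subset_univ (Finset.univ.map ⟨f, hf⟩))]
  · rw [Finset.sum_map]
    refine Finset.sum_congr rfl fun j _ => ?_
    dsimp only [Function.Embedding.coeFn_mk]
    rw [h1]
  · intro i _ hi
    have h2 : ¬ ∃ j, f j = i := by
      rintro ⟨j, rfl⟩
      exact hi (Finset.mem_map.2 ⟨j, Finset.mem_univ j, rfl⟩)
    have h3 : (if h : ∃ j, f j = i then n h.choose else 0) = 0 := dif_neg h2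
    dsimp only
    rw [h3]
    split_ifs
    · rw [map_zero]
      rfl
    · rfl

/-- a subfamily of a totally fast family is totally fast -/
theorem TFamR.sub {C : ∀ c, Set (M c)} {cl : τ → ι} {w : ∀ j, M (cl j)} (h : TFamR ac C cl w)
    {τ' : Type} [Fintype τ'] (f : τ' → τ) (hf : Function.Injective f) :
    TFamR ac C (fun j => cl (f j)) (fun j => w (f j)) := by
  classical
  rintro c n ⟨j, hj, hn⟩
  rw [cmbR_sub f hf]
  refine h c _ ⟨f j, hj, ?_⟩
  have h' : ∃ j', f j' = f j := ⟨j, rfl⟩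
  rw [dif_pos h', hf h'.choose_spec]
  exact hn

theorem cast_prop {ι : Type} {M : ι → Type} (P : ∀ c, M c → Prop) {c c' : ι} (h : c = c')
    (x : M c) (hx : P c x) : P c' (h ▸ x) := by
  subst h
  exact hx

/-- in a totally fast family of combinations of `y` a repeated class is repeated in `y` -/
theorem TFamR.repeated [∀ c, Nontrivial (R c)] {C : ∀ c, Set (M c)} (hC : ∀ c, (0 : M c) ∈ C c)
    {σ : Type} [Fintype σ] {cs : σ → ι} {y : ∀ i, M (cs i)} {cl : τ → ι} {w : ∀ j, M (cl j)}
    [DecidableEq τ] (h : TFamR ac C cl w) (hw : ∀ j, w j ∈ Adm ac cs y (cl j)) {i k : τ}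
    (hik : i ≠ k) (hcl : cl i = cl k) : ∃ a b : σ, a ≠ b ∧ cs a = cl i ∧ cs b = cl i := by
  classical
  by_contra hno
  push Not at hno
  obtain ⟨n, hn⟩ := hw i
  obtain ⟨m, hm⟩ := hw k
  by_cases hex : ∃ a, cs a = cl i
  · obtain ⟨a, ha⟩ := hex
    have huniq : ∀ b, b ≠ a → cs b ≠ cl i := fun b hb h1 => hno b a hb h1 ha
    -- every combination in the class is a multiple of `y a`
    have hone : ∀ n' : σ → R (cl i), cmbR ac cs y (cl i) n' = ac (cl i) (n' a) (ha ▸ y a) := by
      intro n'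
      unfold cmbR
      rw [Finset.sum_eq_single a]
      · rw [dif_pos ha]
      · intro b _ hb
        rw [dif_neg (huniq b hb)]
      · intro h1
        exact absurd (Finset.mem_univ _) h1
    obtain ⟨wk, hwk⟩ : ∃ wk : M (cl i), wk = hcl.symm ▸ w k := ⟨_, rfl⟩
    obtain ⟨m', hm'⟩ : ∃ m' : σ → R (cl i), wk = cmbR ac cs y (cl i) m' := by
      rw [hwk]
      exact cast_prop (fun c x => ∃ m' : σ → R c, x = cmbR ac cs y c m') hcl.symm (w k) ⟨m, hm⟩
    -- the combination `m' a * w i - n a * w k`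
    have hcomb : ∀ (p q : R (cl i)), cmbR ac cl w (cl i) (fun j => if j = i then p else
        if j = k then q else 0) = ac (cl i) p (w i) + ac (cl i) q wk := by
      intro p q
      unfold cmbR
      rw [Finset.sum_eq_add i k hik]
      · congr 1
        · rw [dif_pos rfl]
          beta_reduce
          rw [if_pos rfl]
        · rw [dif_pos hcl.symm]
          beta_reduce
          rw [if_neg (Ne.symm hik), if_pos rfl, hwk]
      · intro j _ hj
        beta_reduce
        rw [if_neg hj.1, if_neg hj.2]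
        split_ifs with h1
        · rw [map_zero]
          rfl
        · rfl
      · intro h1
        exact absurd (Finset.mem_univ _) h1
      · intro h1
        exact absurd (Finset.mem_univ _) h1
    by_cases h0 : m' a = 0 ∧ n a = 0
    · refine h (cl i) (fun j => if j = i then 1 else if j = k then 0 else 0) ⟨i, rfl, ?_⟩ ?_
      · simp
      · rw [hcomb, hn, hone n, h0.2, map_zero]
        have : (ac (cl i) (1 : R (cl i))) ((0 : AddMonoid.End (M (cl i))) (ha ▸ y a)) +
            (0 : AddMonoid.End (M (cl i))) wk = 0 := by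
          simp
        exact this ▸ hC _
    · refine h (cl i) (fun j => if j = i then m' a else if j = k then - n a else 0) ?_ ?_
      · by_cases h1 : m' a = 0
        · refine ⟨k, hcl.symm, ?_⟩
          rw [if_neg (Ne.symm hik), if_pos rfl]
          exact neg_ne_zero.2 fun h2 => h0 ⟨h1, h2⟩
        · exact ⟨i, rfl, by rw [if_pos rfl]; exact h1⟩
      · rw [hcomb, hn, hm', hone n, hone m']
        have : (ac (cl i) (m' a)) ((ac (cl i) (n a)) (ha ▸ y a)) +
            (ac (cl i) (- n a)) ((ac (cl i) (m' a)) (ha ▸ y a)) = 0 := by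
          have h2 : ∀ (p q : R (cl i)) (x : M (cl i)), ac (cl i) p (ac (cl i) q x) =
              ac (cl i) (p * q) x := fun p q x => by
            rw [map_mul]
            rfl
          rw [h2, h2, mul_comm (- n a), mul_neg, map_neg]
          exact add_neg_cancel _
        rw [this]
        exact hC _
  · push Not at hex
    have h0 : w i = 0 := by
      rw [hn]
      unfold cmbR
      exact Finset.sum_eq_zero fun j _ => dif_neg (hex j)
    have h1 := TFamR.single_notMem h i
    rw [h0] at h1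
    exact h1 (hC _)

end cmb

section heights

variable {K : Type} [Field K] [DecidableEq K] {ι : Type} [DecidableEq ι]
  {E : ι → Affine K} {σ : Type} [Fintype σ] (cl : σ → ι)

/-- the height of a combination -/
theorem H_cmbR {H : ∀ c, (E c).Point → ℝ} (hH : ∀ c, IsQuad (H c)) {R : ι → Type}
    [∀ c, CommRing (R c)] (ac : ∀ c, R c →+* AddMonoid.End (E c).Point)
    (hac : ∀ c ρ, ∃ C : ℝ, ∀ P, H c (ac c ρ P) ≤ C * H c P) (c : ι) (n : σ → R c) :
    ∃ C : ℝ, 0 ≤ C ∧ ∀ z : ∀ i, (E (cl i)).Point,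
      H c (cmbR (M := fun c => (E c).Point) ac cl z c n) ≤
        C * nrs (W := fun i => E (cl i)) (fun i => H (cl i)) z := by
  choose Cρ hCρ using hac
  set B : ℝ := ∑ i, √(|Cρ c (n i)|) with hB
  have hB0 : 0 ≤ B := Finset.sum_nonneg fun i _ => Real.sqrt_nonneg _
  refine ⟨B ^ 2, sq_nonneg _, fun z => ?_⟩
  set N := nrs (W := fun i => E (cl i)) (fun i => H (cl i)) z with hN
  have hN0 : 0 ≤ N := Finset.sum_nonneg fun i _ => (hH _).nonneg _
  have hi : ∀ i, H (cl i) (z i) ≤ N := fun i =>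
    Finset.single_le_sum (f := fun i => H (cl i) (z i)) (fun j _ => (hH _).nonneg _)
      (Finset.mem_univ i)
  have h1 : √(H c (cmbR (M := fun c => (E c).Point) ac cl z c n)) ≤ B * √N := by
    unfold cmbR
    refine (sqrt_sum_le (hH c) _ _).trans ?_
    rw [hB, Finset.sum_mul]
    refine Finset.sum_le_sum fun i _ => ?_
    split_ifs with h
    · subst h
      rw [← Real.sqrt_mul (abs_nonneg _)]
      refine Real.sqrt_le_sqrt ((hCρ (cl i) (n i) (z i)).trans ?_)
      refine (mul_le_mul_of_nonneg_right (le_abs_self _) ((hH _).nonneg _)).trans ?_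
      exact mul_le_mul_of_nonneg_left (hi i) (abs_nonneg _)
    · obtain ⟨h0, -, -, -⟩ := Pool.Agent.Helper29.BL.qsn _ _ (hH c)
      rw [h0, Real.sqrt_zero]
      positivity
  have h2 : H c (cmbR (M := fun c => (E c).Point) ac cl z c n) =
      √(H c (cmbR (M := fun c => (E c).Point) ac cl z c n)) ^ 2 :=
    (Real.sq_sqrt ((hH c).nonneg _)).symm
  rw [h2]
  refine (pow_le_pow_left₀ (Real.sqrt_nonneg _) h1 2).trans (le_of_eq ?_)
  rw [mul_pow, Real.sq_sqrt hN0]

end heights

end

end Pool.Agent.Helper19.TG
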