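import Pool.Agent.Helper42.TG.DefsR
import Pool.Agent.Helper19.TG.CmbR
import Pool.Agent.Helper79.SGE.NDG
import Pool.Agent.Helper12.SGB.All

/-!
# Project TG (MP_a41896_nt): S_PR, part A (tools)
-/

set_option autoImplicit false

open MvPolynomial

namespace Pool.Agent.Helper19.TG

open WeierstrassCurve Height
open Pool.Agent.Helper29.BL
open Pool.Agent.Helper92.Ru hiding cmb
open Pool.Agent.Helper42.SG
open Pool.Agent.Helper60.HC (Lo nrs xs)
open Pool.Agent.Helper60.T3 (WL zd IP)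
open Pool.Agent.Helper42.TG (cmb TFam cmbR TFamR slowP Free)
open Pool.Agent.Helper42.TN (NonIsog NoCM NotFlat)

noncomputable section

/-! ## Relations -/

section lo

variable {K : Type} [Field K] [NumberField K] {σ : Type} [Fintype σ] [DecidableEq σ]

theorem lo_pull {τ' : Type} [Fintype τ'] (f : τ' → σ) (hf : Function.Injective f) {I : Finset σ}
    (hI : ∀ i ∈ I, i ∈ Set.range f) {D : ℕ} {A : ℝ} {x : σ → K} (h : Lo I D A x) :
    Lo Finset.univ D A (fun j => x (f j)) := by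
  obtain ⟨g, h1, h2, h3, h4, h5⟩ := h
  obtain ⟨g', hg'⟩ : ∃ g' : MvPolynomial τ' K, rename f g' = g := by
    refine exists_rename_eq_of_vars_subset_range g f hf ?_
    intro i hi
    by_contra hc
    have hiI : i ∉ I := fun hI' => hc (hI i hI')
    have h6 := h3 i hiI
    rw [degreeOf_def, Multiset.count_eq_zero] at h6
    refine h6 ?_
    have h7 : i ∈ g.vars := hi
    rw [vars_def, Multiset.mem_toFinset] at h7
    convert h7
  refine ⟨g', ?_, fun j => ?_, fun j hj => absurd (Finset.mem_univ _) hj, ?_, ?_⟩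
  · rintro rfl
    exact h1 (by rw [← hg', map_zero])
  · rw [← degreeOf_rename_of_injective (p := g') hf j, hg']
    exact h2 _
  · rw [← hg', eval_rename] at h4
    exact h4
  · rw [← Pool.Agent.Helper51.HC.LOR.PH_rename _ hf g', hg']
    exact h5

theorem free_erase {U : Ultrafilter ℕ} {N : ℕ → ℝ} {s : σ → ℕ → K} {a : σ}
    (hF : Free U N (fun j : {j : σ // j ≠ a} => s j.1)) (D' : ℕ) :
    ∃ η : ℝ, 0 < η ∧ ∀ᶠ k in (U : Filter ℕ),
      ¬ Lo (Finset.univ.erase a) D' (η * N k) (fun j => s j k) := by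
  obtain ⟨η, hη, h⟩ := hF D'
  refine ⟨η, hη, ?_⟩
  filter_upwards [h] with k hk hlo
  refine hk (lo_pull (fun j : {j : σ // j ≠ a} => j.1) Subtype.val_injective (fun i hi => ?_) hlo)
  exact ⟨⟨i, (Finset.mem_erase.1 hi).1⟩, rfl⟩

/-- the irreducible relations of slow height -/
theorem hyper {U : Ultrafilter ℕ} {N : ℕ → ℝ} (hN : ∀ R : ℝ, ∀ᶠ k in (U : Filter ℕ), R ≤ N k)
    {s : σ → ℕ → K} (hF : ¬ Free U N s) : ∃ (D : ℕ) (g : ℕ → MvPolynomial σ K),
      (∀ᶠ k in (U : Filter ℕ), Irreducible (g k) ∧ (∀ j, degreeOf j (g k) ≤ D) ∧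
        eval (fun j => s j k) (g k) = 0) ∧
      ∀ η : ℝ, 0 < η → ∀ᶠ k in (U : Filter ℕ), Real.log (PH (g k)) ≤ η * N k := by
  classical
  unfold Free at hF
  push Not at hF
  obtain ⟨D, hD⟩ := hF
  have hD' : ∀ η : ℝ, 0 < η → ∀ᶠ k in (U : Filter ℕ),
      Lo Finset.univ D (η * N k) (fun j => s j k) := by
    intro η hη
    exact hD η hη
  obtain ⟨C, hC, hfact⟩ := Pool.Agent.Helper22.T3.FACT.t K σ D
  set A : ℕ → Set ℝ := fun k => {r | ∃ g : MvPolynomial σ K, g ≠ 0 ∧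
    (∀ i, g.degreeOf i ≤ D) ∧ eval (fun j => s j k) g = 0 ∧ r = Real.log (PH g)} with hA
  have hbd : ∀ k, BddBelow (A k) := by
    intro k
    refine ⟨0, ?_⟩
    rintro r ⟨g, -, -, -, rfl⟩
    exact Real.log_nonneg (Pool.Agent.Helper22.T3.FACT.PH_ge_one g)
  have hex : ∀ k, ∃ h : MvPolynomial σ K, (A k).Nonempty → (Irreducible h ∧
      (∀ j, degreeOf j h ≤ D) ∧ eval (fun j => s j k) h = 0 ∧
      ∀ r ∈ A k, Real.log (PH h) ≤ r + 1 + C) := by
    intro k
    by_cases hne : (A k).Nonempty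
    · obtain ⟨r, ⟨g, g1, g2, g3, rfl⟩, hr⟩ := Real.lt_sInf_add_pos hne one_pos
      obtain ⟨h, h1, h2, h3, -, h5⟩ := hfact g _ g1 g2 g3
      refine ⟨h, fun _ => ⟨h1, h2, h3, fun r' hr' => ?_⟩⟩
      have := csInf_le (hbd k) hr'
      linarith
    · exact ⟨0, fun h => absurd h hne⟩
  choose g hg using hex
  refine ⟨D, g, ?_, fun η hη => ?_⟩
  · filter_upwards [hD' 1 one_pos] with k hk
    obtain ⟨p, p1, p2, -, p4, p5⟩ := hk
    obtain ⟨h1, h2, h3, -⟩ := hg k ⟨_, p, p1, p2, p4, rfl⟩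
    exact ⟨h1, h2, h3⟩
  · filter_upwards [hD' (η / 2) (half_pos hη), hN ((1 + C) * 2 / η)] with k hk hk2
    obtain ⟨p, p1, p2, -, p4, p5⟩ := hk
    obtain ⟨-, -, -, h4⟩ := hg k ⟨_, p, p1, p2, p4, rfl⟩
    have h5 := h4 _ ⟨p, p1, p2, p4, rfl⟩
    have h6 : (1 + C) * 2 / η * (η / 2) ≤ N k * (η / 2) :=
      mul_le_mul_of_nonneg_right hk2 (half_pos hη).le
    have h7 : (1 + C) * 2 / η * (η / 2) = 1 + C := by
      field_simp
    linarith

/-- all the variables occur -/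
theorem occurs {U : Ultrafilter ℕ} {N : ℕ → ℝ} {s : σ → ℕ → K} {a : σ}
    (hF : Free U N (fun j : {j : σ // j ≠ a} => s j.1)) {D : ℕ} {g : ℕ → MvPolynomial σ K}
    (hg : ∀ᶠ k in (U : Filter ℕ), Irreducible (g k) ∧ (∀ j, degreeOf j (g k) ≤ D) ∧
        eval (fun j => s j k) (g k) = 0)
    (hP : ∀ η : ℝ, 0 < η → ∀ᶠ k in (U : Filter ℕ), Real.log (PH (g k)) ≤ η * N k) :
    ∀ᶠ k in (U : Filter ℕ), degreeOf a (g k) ≠ 0 := by
  obtain ⟨η, hη, h⟩ := free_erase hF D
  filter_upwards [h, hg, hP η hη] with k h1 h2 h3 h4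
  refine h1 ⟨g k, h2.1.ne_zero, h2.2.1, fun i hi => ?_, h2.2.2, h3⟩
  have : i = a := by
    by_contra hne
    exact hi (Finset.mem_erase.2 ⟨hne, Finset.mem_univ _⟩)
  rw [this, h4]

/-- the derivatives do not vanish -/
theorem der_ne (hPDR : Pool.Agent.Helper42.TN.PDR) {U : Ultrafilter ℕ} {N : ℕ → ℝ}
    (hN : ∀ R : ℝ, ∀ᶠ k in (U : Filter ℕ), R ≤ N k) {s : σ → ℕ → K} {a : σ}
    (hF : Free U N (fun j : {j : σ // j ≠ a} => s j.1)) {D : ℕ} {g : ℕ → MvPolynomial σ K}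
    (hg : ∀ᶠ k in (U : Filter ℕ), Irreducible (g k) ∧ (∀ j, degreeOf j (g k) ≤ D) ∧
        eval (fun j => s j k) (g k) = 0)
    (hP : ∀ η : ℝ, 0 < η → ∀ᶠ k in (U : Filter ℕ), Real.log (PH (g k)) ≤ η * N k) :
    ∀ᶠ k in (U : Filter ℕ), eval (fun j => s j k) (pderiv a (g k)) ≠ 0 := by
  obtain ⟨D', C, hC, h0⟩ := hPDR K σ D
  obtain ⟨η, hη, h⟩ := free_erase hF D'
  have hC1 : 0 < C + 1 := by linarith
  filter_upwards [h, hg, hP (η / (2 * (C + 1))) (by positivity), occurs hF hg hP,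
    hN (2 * C / η), hN 0] with k h1 h2 h3 h4 h5 h7 h6
  refine h1 (Pool.Agent.Helper19.TN.lo_mn (h0 (g k) _ a (η / (2 * (C + 1)) * N k) h2.1 h2.2.1 h4
    h2.2.2 h6 h3 (by positivity)) subset_rfl le_rfl ?_)
  have h8 : C * (η / (2 * (C + 1)) * N k) ≤ η / 2 * N k := by
    have h9 : C * (η / (2 * (C + 1))) ≤ η / 2 := by
      rw [← mul_div_assoc, div_le_div_iff₀ (by positivity) (by norm_num)]
      nlinarith
    calc C * (η / (2 * (C + 1)) * N k) = C * (η / (2 * (C + 1))) * N k := by ring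
      _ ≤ η / 2 * N k := mul_le_mul_of_nonneg_right h9 h7
  have h10 : 2 * C / η * (η / 2) ≤ N k * (η / 2) :=
    mul_le_mul_of_nonneg_right h5 (half_pos hη).le
  have h11 : 2 * C / η * (η / 2) = C := by
    field_simp
  linarith

end lo

/-! ## Actions on sequences -/

section acts

/-- the action on sequences -/
def sq {R M : Type} [CommRing R] [AddCommGroup M] (ac : R →+* AddMonoid.End M) :
    R →+* AddMonoid.End (ℕ → M) where
  toFun ρ :=
    { toFun := fun s k => ac ρ (s k)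
      map_zero' := by
        ext k
        exact map_zero (ac ρ)
      map_add' := fun s t => by
        ext k
        exact map_add (ac ρ) _ _ }
  map_one' := by
    ext s k
    show ac 1 (s k) = s k
    rw [map_one]
    rfl
  map_mul' ρ ρ' := by
    ext s k
    show ac (ρ * ρ') (s k) = ac ρ (ac ρ' (s k))
    rw [map_mul]
    rfl
  map_zero' := by
    ext s k
    show ac 0 (s k) = 0
    rw [map_zero]
    rfl
  map_add' ρ ρ' := by
    ext s k
    show ac (ρ + ρ') (s k) = ac ρ (s k) + ac ρ' (s k)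
    rw [map_add]
    rfl

theorem sq_apply {R M : Type} [CommRing R] [AddCommGroup M] (ac : R →+* AddMonoid.End M) (ρ : R)
    (s : ℕ → M) (k : ℕ) : sq ac ρ s k = ac ρ (s k) := rfl

variable {ι τ : Type} [DecidableEq ι] [Fintype τ] {R M : ι → Type} [∀ c, CommRing (R c)]
  [∀ c, AddCommGroup (M c)] (ac : ∀ c, R c →+* AddMonoid.End (M c))

theorem cmbR_seq (cl : τ → ι) (w : ∀ j, ℕ → M (cl j)) (c : ι) (n : τ → R c) (k : ℕ) :
    cmbR (M := fun c => ℕ → M c) (fun c => sq (ac c)) cl w c n k =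
      cmbR ac cl (fun j => w j k) c n := by
  have h := cmbR_map (M := fun c => ℕ → M c) (M' := M) (fun c => sq (ac c)) ac cl
    (fun c => Pi.evalAddMonoidHom (fun _ : ℕ => M c) k) (fun c ρ P => rfl) w c n
  exact h

/-- the combination as a homomorphism -/
def cmbH (cl : τ → ι) (c : ι) (n : τ → R c) : (∀ j, M (cl j)) →+ M c where
  toFun w := cmbR ac cl w c n
  map_zero' := by
    unfold cmbR
    refine Finset.sum_eq_zero fun j _ => ?_
    split_ifs with h
    · subst h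
      exact map_zero _
    · rfl
  map_add' w w' := by
    unfold cmbR
    rw [← Finset.sum_add_distrib]
    refine Finset.sum_congr rfl fun j _ => ?_
    split_ifs with h
    · subst h
      exact map_add _ _ _
    · rw [add_zero]

theorem cmbH_apply (cl : τ → ι) (c : ι) (n : τ → R c) (w : ∀ j, M (cl j)) :
    cmbH ac cl c n w = cmbR ac cl w c n := rfl

end acts

end

end Pool.Agent.Helper19.TG
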