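import Pool.Agent.Helper19.TG.PRc
import Pool.Agent.Helper42.TG.DefsM

/-!
# Project TG (MP_a41896_nt): S_PRM, the ring version of S_PR
-/

set_option autoImplicit false

open MvPolynomial

namespace Pool.Agent.Helper19.TG

open WeierstrassCurve Height
open Pool.Agent.Helper29.BL
open Pool.Agent.Helper92.Ru hiding cmb
open Pool.Agent.Helper42.SG
open Pool.Agent.Helper60.HC (Lo nrs xs)
open Pool.Agent.Helper60.T3 (WL zd IP)
open Pool.Agent.Helper42.TG (cmb TFam cmbR TFamR slowP Free GK gl gm KL S_FLAT S_CLAIMR KLX LNK GPT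
  SLW S_PRM HTR RAct RAll acK acS EndL)
open Pool.Agent.Helper42.TN (NonIsog NoCM NotFlat S_FSTEPF AlN)
open Pool.Agent.Helper19.TN (UD Pr AlB alB)

noncomputable section

/-! ## Points -/

theorem pt_eq {L : Type} [Field L] [CharZero L] {W : Affine L} {P Q : W.Point} (hP : P ≠ 0)
    (hQ : Q ≠ 0) (hx : xc P = xc Q) (hp : ps P = ps Q) : P = Q := by
  rcases P with _ | ⟨x, y, h⟩
  · exact absurd rfl hP
  rcases Q with _ | ⟨x', y', h'⟩
  · exact absurd rfl hQ
  have hx' : x = x' := hx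
  subst hx'
  have hp' : 2 * y + W.a₁ * x + W.a₃ = 2 * y' + W.a₁ * x + W.a₃ := hp
  have hy : y = y' := by
    have h2 : (2 : L) ≠ 0 := two_ne_zero
    refine mul_left_cancel₀ h2 ?_
    linear_combination hp'
  subst hy
  rfl

section germs

variable {K : Type} [Field K] (U : Ultrafilter ℕ) (L : Type) [Field L] [Algebra (GK K U) L]

/-- sequences to `L` -/
def glR : (ℕ → K) →+* L :=
  (algebraMap (GK K U) L).comp (Filter.Germ.coeRingHom (U : Filter ℕ))

theorem glR_apply (f : ℕ → K) : glR U L f = gl U L f := rfl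

theorem gl_eq_iff (f g : ℕ → K) : gl U L f = gl U L g ↔ ∀ᶠ k in (U : Filter ℕ), f k = g k := by
  unfold gl gm
  rw [(algebraMap (GK K U) L).injective.eq_iff]
  exact Filter.Germ.coe_eq

theorem gl_aeval [Algebra K L]
    (hc : ∀ a : K, algebraMap K L a = algebraMap (GK K U) L (gm U fun _ => a)) (f : ℕ → K)
    (p : Polynomial K) : Polynomial.aeval (gl U L f) p =
      gl U L (fun k => Polynomial.aeval (f k) p) := by
  have h1 : (fun k => Polynomial.aeval (f k) p) =
      Polynomial.eval₂ (Pi.constRingHom ℕ K) f p := by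
    funext k
    have h2 := Polynomial.hom_eval₂ p (Pi.constRingHom ℕ K) (Pi.evalRingHom (fun _ : ℕ => K) k) f
    exact h2.symm
  rw [h1, ← glR_apply, ← glR_apply U L (Polynomial.eval₂ (Pi.constRingHom ℕ K) f p),
    Polynomial.hom_eval₂, Polynomial.aeval_def]
  congr 1
  ext a
  exact hc a

end germs

/-! ## The action on the points of the ultrapower -/

theorem phi_act {K : Type} [Field K] [CharZero K] [DecidableEq K] {U : Ultrafilter ℕ} {L : Type}
    [Field L] [DecidableEq L] [Algebra (GK K U) L] [Algebra K L]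
    (hc : ∀ a : K, algebraMap K L a = algebraMap (GK K U) L (gm U fun _ => a)) {W : Affine K}
    {R : Subring K} {ac : ∀ (F : Type) [Field F] [DecidableEq F] [Algebra K F],
      R →+* AddMonoid.End (WL F W).Point} (hR : RAct W R ac)
    {φ : (ℕ → W.Point) →+ (WL L W).Point}
    (hφ : ∀ s : ℕ → W.Point, (φ s = 0 ↔ ∀ᶠ k in (U : Filter ℕ), s k = 0) ∧
        xc (φ s) = gl U L (fun k => xc (s k)) ∧ ps (φ s) = gl U L (fun k => ps (s k)))
    (ρ : R) (s : ℕ → W.Point) : φ (sq (acK ac) ρ s) = ac L ρ (φ s) := by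
  have hcL : CharZero L := charZero_of_injective_algebraMap (algebraMap K L).injective
  by_cases hs : ∀ᶠ k in (U : Filter ℕ), s k = 0
  · rw [(hφ s).1.2 hs, map_zero, (hφ _).1]
    filter_upwards [hs] with k hk
    rw [sq_apply, hk, map_zero]
  by_cases hρ : ρ = 0
  · rw [hρ, map_zero, map_zero]
    exact map_zero φ
  have hs' : ∀ᶠ k in (U : Filter ℕ), s k ≠ 0 := Ultrafilter.eventually_not.2 hs
  have hφs : φ s ≠ 0 := fun h => hs ((hφ s).1.1 h)
  obtain ⟨A, B, -, -, hAB⟩ := hR.rat ρ hρ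
  have hK : ∀ P : W.Point, P ≠ 0 → (acK ac ρ P = 0 ↔ Polynomial.aeval (xc P) B = 0) ∧
      (acK ac ρ P ≠ 0 →
        xc (acK ac ρ P) * Polynomial.aeval (xc P) B = Polynomial.aeval (xc P) A ∧
        (ρ : K) * ps (acK ac ρ P) * Polynomial.aeval (xc P) B ^ 2 =
          Polynomial.aeval (xc P) (Polynomial.derivative A * B - A * Polynomial.derivative B) *
            ps P) := fun P hP => hAB K P hP
  obtain ⟨hL1, hL2⟩ := hAB L (φ s) hφs
  rw [(hφ s).2.1, gl_aeval U L hc] at hL1
  have hz : gl U L (fun k => Polynomial.aeval (xc (s k)) B) = 0 ↔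
      ∀ᶠ k in (U : Filter ℕ), Polynomial.aeval (xc (s k)) B = 0 := by
    have h1 := gl_eq_iff U L (fun k => Polynomial.aeval (xc (s k)) B) 0
    rw [← glR_apply U L (0 : ℕ → K), map_zero] at h1
    exact h1
  have hzz : ac L ρ (φ s) = 0 ↔ φ (sq (acK ac) ρ s) = 0 := by
    rw [hL1, hz, (hφ _).1]
    refine ⟨fun h => ?_, fun h => ?_⟩
    · filter_upwards [h, hs'] with k h1 h2
      rw [sq_apply]
      exact (hK _ h2).1.2 h1
    · filter_upwards [h, hs'] with k h1 h2
      exact (hK _ h2).1.1 h1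
  by_cases h0 : ac L ρ (φ s) = 0
  · rw [h0, hzz.1 h0]
  have h0' : φ (sq (acK ac) ρ s) ≠ 0 := fun h => h0 (hzz.2 h)
  have hB0 : gl U L (fun k => Polynomial.aeval (xc (s k)) B) ≠ 0 := fun h => h0 (hL1.2 h)
  obtain ⟨hx, hp⟩ := hL2 h0
  rw [(hφ s).2.1, gl_aeval U L hc, gl_aeval U L hc] at hx
  rw [(hφ s).2.1, gl_aeval U L hc, gl_aeval U L hc, (hφ s).2.2] at hp
  have hne : ∀ᶠ k in (U : Filter ℕ), acK ac ρ (s k) ≠ 0 := by
    refine Ultrafilter.eventually_not.2 fun h => h0' ?_
    rw [(hφ _).1]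
    exact h
  refine pt_eq h0' h0 ?_ ?_
  · refine mul_right_cancel₀ hB0 ?_
    rw [hx, (hφ _).2.1, ← glR_apply, ← glR_apply, ← glR_apply, ← map_mul, glR_apply, glR_apply,
      gl_eq_iff]
    filter_upwards [hs', hne] with k h1 h2
    exact ((hK _ h1).2 h2).1
  · have hρL : algebraMap K L ρ ≠ 0 := by
      intro h
      have h1 : (ρ : K) = 0 := (algebraMap K L).injective (by rw [h, map_zero])
      exact hρ (Subtype.ext h1)
    refine mul_left_cancel₀ hρL (mul_right_cancel₀ (pow_ne_zero 2 hB0) ?_)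
    rw [hp, (hφ _).2.2, hc, show algebraMap (GK K U) L (gm U fun _ => (ρ : K)) =
      glR U L (fun _ => (ρ : K)) from rfl, ← glR_apply, ← glR_apply, ← glR_apply, ← glR_apply,
      ← map_mul, ← map_pow, ← map_mul, ← map_mul, glR_apply, glR_apply, gl_eq_iff]
    filter_upwards [hs', hne] with k h1 h2
    exact ((hK _ h1).2 h2).2

/-- coordinates of `ρ P` -/
theorem ip_act {K L : Type} [Field K] [CharZero K] [Field L] [DecidableEq L] [Algebra K L]
    {W : Affine K} {R : Subring K} {ac : ∀ (F : Type) [Field F] [DecidableEq F] [Algebra K F],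
      R →+* AddMonoid.End (WL F W).Point} (hR : RAct W R ac) (ρ : R) (F : IntermediateField K L)
    (P : (WL L W).Point) (h : IP (F : Set L) P) : IP (F : Set L) (ac L ρ P) := by
  by_cases hP : P = 0
  · rw [hP, map_zero]
    exact Or.inl rfl
  by_cases hρ : ρ = 0
  · rw [hρ, map_zero]
    exact Or.inl rfl
  by_cases h0 : ac L ρ P = 0
  · exact Or.inl h0
  obtain ⟨hx, hp⟩ := h.resolve_left hP
  obtain ⟨A, B, -, -, hAB⟩ := hR.rat ρ hρ
  obtain ⟨h1, h2⟩ := hAB L P hP
  have hB0 : Polynomial.aeval (xc P) B ≠ 0 := fun h => h0 (h1.2 h)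
  have hmem : ∀ p : Polynomial K, Polynomial.aeval (xc P) p ∈ F := by
    intro p
    have h3 : Polynomial.aeval (xc P) p =
        algebraMap F L (Polynomial.aeval (⟨xc P, hx⟩ : F) p) :=
      (Polynomial.aeval_algebraMap_apply L (⟨xc P, hx⟩ : F) p).symm ▸ rfl
    rw [h3]
    exact (Polynomial.aeval (⟨xc P, hx⟩ : F) p).2
  have hρL : algebraMap K L ρ ≠ 0 := by
    intro h
    have h1 : (ρ : K) = 0 := (algebraMap K L).injective (by rw [h, map_zero])
    exact hρ (Subtype.ext h1)
  obtain ⟨h3, h4⟩ := h2 h0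
  refine Or.inr ⟨?_, ?_⟩
  · have h5 : xc (ac L ρ P) = Polynomial.aeval (xc P) A / Polynomial.aeval (xc P) B := by
      rw [eq_div_iff hB0]
      exact h3
    show xc (ac L ρ P) ∈ F
    rw [h5]
    exact div_mem (hmem _) (hmem _)
  · have h5 : ps (ac L ρ P) = Polynomial.aeval (xc P) (Polynomial.derivative A * B -
        A * Polynomial.derivative B) * ps P /
        (algebraMap K L ρ * Polynomial.aeval (xc P) B ^ 2) := by
      rw [eq_div_iff (mul_ne_zero hρL (pow_ne_zero 2 hB0)), ← h4]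
      ring
    show ps (ac L ρ P) ∈ F
    rw [h5]
    exact div_mem (mul_mem (hmem _) hp) (mul_mem (F.algebraMap_mem _) (pow_mem (hmem _) 2))

/-- all endomorphisms over the intermediate fields -/
theorem endL_of_rall {K L : Type} [Field K] [CharZero K] [Field L] [DecidableEq L] [Algebra K L]
    (W : Affine K) {R : Subring K} {ac : ∀ (F : Type) [Field F] [DecidableEq F] [Algebra K F],
      R →+* AddMonoid.End (WL F W).Point} (h : RAll W R ac) : EndL (R := R) W (ac L) := by
  intro F hF v hv0 htr S hS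
  by_cases hS0 : S = 0
  · refine ⟨0, 0, ?_, Or.inl rfl⟩
    rw [map_zero, hS0, add_zero]
    rfl
  rcases hS with hS | hS
  · exact absurd hS hS0
  rcases v with _ | ⟨x, y, hxy⟩
  · exact absurd rfl hv0
  rcases S with _ | ⟨x', y', hxy'⟩
  · exact absurd rfl hS0
  have h2 : (2 : L) ≠ 0 := by
    have : CharZero L := charZero_of_injective_algebraMap (algebraMap K L).injective
    exact two_ne_zero
  set G : IntermediateField F L := IntermediateField.adjoin F ({x, y} : Set L) with hG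
  have hx : x ∈ G := IntermediateField.subset_adjoin F _ (by simp)
  have hy : y ∈ G := IntermediateField.subset_adjoin F _ (by simp)
  have hK : ∀ a : K, algebraMap K L a ∈ G := by
    intro a
    have h3 : algebraMap K L a = algebraMap F L (algebraMap K F a) :=
      IsScalarTower.algebraMap_apply K F L a
    rw [h3]
    exact G.algebraMap_mem _
  have ha1 : (WL L W).a₁ ∈ G := by
    show (WeierstrassCurve.map W (algebraMap K L)).a₁ ∈ G
    rw [WeierstrassCurve.map_a₁]
    exact hK _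
  have ha3 : (WL L W).a₃ ∈ G := by
    show (WeierstrassCurve.map W (algebraMap K L)).a₃ ∈ G
    rw [WeierstrassCurve.map_a₃]
    exact hK _
  have hle : IntermediateField.adjoin F
      ({xc (Affine.Point.some x y hxy : (WL L W).Point),
        ps (Affine.Point.some x y hxy : (WL L W).Point)} : Set L) ≤ G := by
    rw [IntermediateField.adjoin_le_iff]
    rintro z (rfl | rfl)
    · exact hx
    · show 2 * y + (WL L W).a₁ * x + (WL L W).a₃ ∈ G
      have h2m : (2 : L) ∈ G := by
        have := hK 2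
        rwa [map_ofNat] at this
      exact add_mem (add_mem (mul_mem h2m hy) (mul_mem ha1 hx)) ha3
  have hx' : x' ∈ G := hle hS.1
  have hps' : 2 * y' + (WL L W).a₁ * x' + (WL L W).a₃ ∈ G := hle hS.2
  have hy' : y' ∈ G := by
    have h2m : (2 : L) ∈ G := by
      have := hK 2
      rwa [map_ofNat] at this
    have h3 : y' = (2 * y' + (WL L W).a₁ * x' + (WL L W).a₃ - (WL L W).a₁ * x' -
        (WL L W).a₃) / 2 := by
      field_simp
      ring
    rw [h3]
    exact div_mem (sub_mem (sub_mem hps' (mul_mem ha1 hx')) ha3) h2m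
  obtain ⟨φ, c, hc, hc'⟩ := h F L x y hxy htr x' y' hxy' hx' hy'
  refine ⟨φ, c, hc, ?_⟩
  rcases hc' with h0 | ⟨x₀, y₀, h₀, hc0⟩
  · exact Or.inl h0
  · refine Or.inr ?_
    rw [hc0]
    refine ⟨x₀.2, ?_⟩
    show 2 * (algebraMap F L y₀) + (WL L W).a₁ * (algebraMap F L x₀) + (WL L W).a₃ ∈ (F : Set L)
    have hKF : ∀ a : K, algebraMap K L a ∈ F := fun a => F.algebraMap_mem a
    have h2m : (2 : L) ∈ F := by
      have := hKF 2
      rwa [map_ofNat] at this
    have ha1F : (WL L W).a₁ ∈ F := by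
      show (WeierstrassCurve.map W (algebraMap K L)).a₁ ∈ F
      rw [WeierstrassCurve.map_a₁]
      exact hKF _
    have ha3F : (WL L W).a₃ ∈ F := by
      show (WeierstrassCurve.map W (algebraMap K L)).a₃ ∈ F
      rw [WeierstrassCurve.map_a₃]
      exact hKF _
    exact add_mem (add_mem (mul_mem h2m y₀.2) (mul_mem ha1F x₀.2)) ha3F

/-! ## S_PRM -/

theorem s_prm (hFS : S_FSTEPF) (hPDR : Pool.Agent.Helper42.TN.PDR) (hFL : S_FLAT)
    (hCL : S_CLAIMR) (hKLX : KLX) (hLNK : LNK) (hGPT : GPT) (hSLW : SLW) (hHTR : HTR) : S_PRM := by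
  intro K _ _ _ ι _ E hE hNI R ac hR σ _ _ cl hall H c₀ hH U y hU r cl' n hTF
  set N : ℕ → ℝ := fun k => nrs (W := fun i => E (cl i)) (fun i => H (cl i)) (y k) with hN
  have hNb : ∀ R : ℝ, ∀ᶠ k in (U : Filter ℕ), R ≤ N k := hU.big
  obtain ⟨κ, L, _, _, _, _, _, _, hκ, hL, hT, hKL⟩ := hKLX K U N hNb
  classical
  let _ : DecidableEq L := Classical.decEq L
  choose φ hφ using fun c => hGPT K U L hKL.cst (E c) (hE c)
  have hQ : IsQuad (nrs (W := fun i => E (cl i)) fun i => H (cl i)) :=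
    Pool.Agent.Helper60.HC.th_QPI.1 σ (fun i => (E (cl i)).Point) _ fun i => (hH (cl i)).quad
  refine pr_core hFS hPDR hFL hE hH (R := fun c => R c) (fun c => acK (ac c)) ?_ hQ hU hκ hL
    hKL (fun c => ac c L) φ (fun c s => (hφ c s).2) (fun c ρ s => phi_act hKL.cst (hR c) (hφ c) ρ s)
    (fun c s => hSLW K U N hNb κ L hκ hL hKL (E c) (hE c) (H c) c₀ (hH c) (φ c) (hφ c) s)
    (fun τ _ s => hLNK K U N hNb κ L hκ hL hKL τ s) ?_ r (Fin r) (Fintype.card_fin r) cl' _
    (fun j => ⟨n j, rfl⟩) hTF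
  · intro c ρ
    by_cases hρ : ρ = 0
    · refine ⟨0, fun P => ?_⟩
      rw [hρ, map_zero, zero_mul]
      exact le_of_eq (hH c).quad.zero
    · obtain ⟨m, -, hm⟩ := hHTR K (E c) (hE c) (R c) (ac c) (hR c) (H c) c₀ (hH c) ρ hρ
      exact ⟨m, fun P => (hm P).le⟩
  · intro τ _ _ cl₁ hrep w hw hsm hdep D α hD
    refine hCL K κ L ι E hE hNI (fun c => R c) (fun c => ac c L) (fun c => (R c).subtype)
      (fun c => Subtype.val_injective) (fun c ρ D P => (hR c).dif ρ L D P)
      (fun c ρ F P h => ip_act (hR c) ρ F P h) τ cl₁ (fun i k hik hcl => ?_) w hw hsm hdep D α hD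
    obtain ⟨a, b, hab, ha, hb⟩ := hrep i k hik hcl
    rw [← ha]
    exact endL_of_rall (E (cl a)) (hall a b hab (ha.trans hb.symm))

end

end Pool.Agent.Helper19.TG
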