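import Pool.Agent.Helper19.TG.PR
import Pool.Agent.Helper19.TG.PRM
import Pool.Agent.Helper19.TN.Main
import Pool.Agent.Helper68.TG.Main
import Pool.Agent.Helper60.TG.Main
import Pool.Agent.Helper25.TG.KLX
import Pool.Agent.Helper14.TG.LNK
import Pool.Agent.Helper78.TG.GPT
import Pool.Agent.Helper42.TG.SLW
import Pool.Agent.Helper92.TG.MainH

/-!
# Project TG (MP_a41896_nt): S_PR and S_PRM, unconditional
-/

set_option autoImplicit false

namespace Pool.Agent.Helper19.TG

/-- totally fast families of integer combinations are free -/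
theorem th_PR : Pool.Agent.Helper42.TG.S_PR :=
  s_pr Pool.Agent.Helper19.TN.th_FSTEPF Pool.Agent.Helper19.TN.th_PDR
    Pool.Agent.Helper68.TG.th_FLAT Pool.Agent.Helper60.TG.th_CLAIM Pool.Agent.Helper25.TG.t_KLX
    Pool.Agent.Helper14.TG.t_LNK Pool.Agent.Helper78.TG.t_GPT Pool.Agent.Helper42.TG.t_SLW

/-- totally fast families of combinations with coefficients in the rings of endomorphisms are free -/
theorem th_PRM : Pool.Agent.Helper42.TG.S_PRM :=
  s_prm Pool.Agent.Helper19.TN.th_FSTEPF Pool.Agent.Helper19.TN.th_PDR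
    Pool.Agent.Helper68.TG.th_FLAT Pool.Agent.Helper60.TG.th_CLAIMR Pool.Agent.Helper25.TG.t_KLX
    Pool.Agent.Helper14.TG.t_LNK Pool.Agent.Helper78.TG.t_GPT Pool.Agent.Helper42.TG.t_SLW
    Pool.Agent.Helper92.TG.MainH.th_HTR

end Pool.Agent.Helper19.TG
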