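import Pool.Agent.Helper19.TG.PRc
import Pool.Agent.Helper42.TG.DefsE
import Pool.Agent.Helper92.TG.Cmb

/-!
# Project TG (MP_a41896_nt): S_PR from S_FSTEPF, PDR, S_FLAT, S_CLAIM, KLX, LNK, GPT, SLW
-/

set_option autoImplicit false

open MvPolynomial

namespace Pool.Agent.Helper19.TG

open WeierstrassCurve Height
open Pool.Agent.Helper29.BL
open Pool.Agent.Helper92.Ru hiding cmb
open Pool.Agent.Helper42.SG
open Pool.Agent.Helper60.HC (Lo nrs xs)
open Pool.Agent.Helper60.T3 (WL zd IP)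
open Pool.Agent.Helper42.TG (cmb TFam cmbR TFamR slowP Free GK gl KL S_FLAT S_CLAIM KLX LNK GPT
  SLW S_PR)
open Pool.Agent.Helper42.TN (NonIsog NoCM NotFlat S_FSTEPF AlN)
open Pool.Agent.Helper19.TN (UD Pr AlB alB)
open Pool.Agent.Helper92.TG (acZ acZ_apply cmb_eq tfam_iff)

noncomputable section

theorem acZ_seq {ι : Type} [DecidableEq ι] (M : ι → Type) [∀ c, AddCommGroup (M c)] :
    (fun c => sq (acZ M c)) = acZ (fun c => ℕ → M c) := by
  funext c
  ext n s k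
  show sq (acZ M c) n s k = acZ (fun c => ℕ → M c) c n s k
  rw [sq_apply, acZ_apply, acZ_apply]
  rfl

theorem s_pr (hFS : S_FSTEPF) (hPDR : Pool.Agent.Helper42.TN.PDR) (hFL : S_FLAT) (hCL : S_CLAIM)
    (hKLX : KLX) (hLNK : LNK) (hGPT : GPT) (hSLW : SLW) : S_PR := by
  intro K _ _ _ ι _ E hE hNI σ _ _ cl hCM H c₀ hH U y hU r cl' n hTF
  set N : ℕ → ℝ := fun k => nrs (W := fun i => E (cl i)) (fun i => H (cl i)) (y k) with hN
  have hNb : ∀ R : ℝ, ∀ᶠ k in (U : Filter ℕ), R ≤ N k := hU.big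
  obtain ⟨κ, L, _, _, _, _, _, _, hκ, hL, hT, hKL⟩ := hKLX K U N hNb
  classical
  let _ : DecidableEq L := Classical.decEq L
  choose φ hφ using fun c => hGPT K U L hKL.cst (E c) (hE c)
  have hQ : IsQuad (nrs (W := fun i => E (cl i)) fun i => H (cl i)) :=
    Pool.Agent.Helper60.HC.th_QPI.1 σ (fun i => (E (cl i)).Point) _ fun i => (hH (cl i)).quad
  have hadm : ∀ j, cmb (M := fun c => ℕ → (E c).Point) cl (fun i k => y k i) (cl' j) (n j) ∈
      Adm (M := fun c => ℕ → (E c).Point) (R := fun _ => ℤ)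
        (fun c => sq (acZ (fun c => (E c).Point) c)) cl (fun i k => y k i) (cl' j) := by
    intro j
    rw [mem_Adm]
    refine ⟨n j, ?_⟩
    rw [acZ_seq, cmb_eq]
  refine pr_core hFS hPDR hFL hE hH (R := fun _ => ℤ) (acZ (fun c => (E c).Point)) ?_ hQ hU hκ hL
    hKL (acZ fun c => (WL L (E c)).Point) φ (fun c s => (hφ c s).2) ?_
    (fun c s => hSLW K U N hNb κ L hκ hL hKL (E c) (hE c) (H c) c₀ (hH c) (φ c) (hφ c) s)
    (fun τ _ s => hLNK K U N hNb κ L hκ hL hKL τ s) ?_ r (Fin r) (Fintype.card_fin r) cl' _ hadm ?_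
  · intro c m
    refine ⟨(m : ℝ) ^ 2, fun P => ?_⟩
    rw [acZ_apply, (hH c).quad.zsmul]
  · intro c m s
    rw [acZ_apply]
    have h1 : sq (acZ (fun c => (E c).Point) c) m s = m • s := by
      funext k
      rw [sq_apply, acZ_apply]
      rfl
    rw [h1, map_zsmul]
  · intro τ _ _ cl₁ hrep w hw hsm hdep D α hD
    refine hCL K κ L ι E hE hNI τ cl₁ (fun i k hik hcl => ?_) w ((tfam_iff _ _ _).2 hw) ?_ hdep
      D α hD
    · obtain ⟨a, b, hab, ha, hb⟩ := hrep i k hik hcl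
      rw [← ha]
      exact hCM a b hab (ha.trans hb.symm)
    · intro ρ hρ cl₂ m hm
      have h1 := hsm ρ hρ cl₂ m
      simp only [← cmb_eq] at h1
      exact h1 ((tfam_iff _ _ _).1 hm)
  · rw [acZ_seq]
    exact (tfam_iff _ _ _).1 hTF

end

end Pool.Agent.Helper19.TG
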