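import Pool.Agent.Helper19.TG.PRa

/-!
# Project TG (MP_a41896_nt): S_PR, part B (the F-step for combinations)
-/

set_option autoImplicit false

open MvPolynomial

namespace Pool.Agent.Helper19.TG

open WeierstrassCurve Height
open Pool.Agent.Helper29.BL
open Pool.Agent.Helper92.Ru hiding cmb
open Pool.Agent.Helper42.SG
open Pool.Agent.Helper60.HC (Lo nrs xs)
open Pool.Agent.Helper60.T3 (WL zd IP)
open Pool.Agent.Helper42.TG (cmb TFam cmbR TFamR slowP Free)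
open Pool.Agent.Helper42.TN (NonIsog NoCM NotFlat S_FSTEPF AlN)
open Pool.Agent.Helper19.TN (UD Pr AlB alB)

noncomputable section

theorem fs_contra (hFS : S_FSTEPF) {K : Type} [Field K] [NumberField K] [DecidableEq K]
    {σ : Type} [Fintype σ] {W : σ → Affine K}
    {H : ∀ i, (W i).Point → ℝ} (hQ : IsQuad (nrs H)) {U : Ultrafilter ℕ}
    {y : ℕ → ∀ i, (W i).Point} (hU : UD U (nrs H) y) {τ : Type} [Fintype τ] [DecidableEq τ]
    {W' : τ → Affine K} (hW' : ∀ j, (W' j).IsElliptic) {H' : ∀ j, (W' j).Point → ℝ} {c₀ : ℝ}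
    (hH' : ∀ j, CanH (W' j) (H' j) c₀) (Λ : (∀ i, (W i).Point) →+ ∀ j, (W' j).Point) {Cw : ℝ}
    (hCw : 1 ≤ Cw) (hΛ : ∀ z, nrs H' (Λ z) ≤ Cw * nrs H z) (a i1 : τ) (hia : i1 ≠ a) {δ : ℝ}
    (hδ : 0 < δ) (hfast : ∀ᶠ k in (U : Filter ℕ), δ * nrs H (y k) ≤ hx (Λ (y k) i1))
    (hnd : ∀ᶠ k in (U : Filter ℕ), ∀ j, Λ (y k) j ≠ 0 ∧ ps (Λ (y k) j) ≠ 0) {D : ℕ}
    {g : ℕ → MvPolynomial τ K}
    (hg : ∀ᶠ k in (U : Filter ℕ), Irreducible (g k) ∧ (∀ j, degreeOf j (g k) ≤ D) ∧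
        eval (xs (Λ (y k))) (g k) = 0 ∧ NotFlat W' (g k))
    (hP : ∀ η : ℝ, 0 < η → ∀ᶠ k in (U : Filter ℕ), Real.log (PH (g k)) ≤ η * nrs H (y k))
    (hfree : ∀ (i : τ) (D' : ℕ), ∃ η : ℝ, 0 < η ∧ ∀ᶠ k in (U : Filter ℕ),
      ¬ Lo (Finset.univ.erase i) D' (η * nrs H (y k)) (xs (Λ (y k)))) : False := by
  obtain ⟨n, hn⟩ : ∃ n, Fintype.card τ = n + 1 := by
    have : 0 < Fintype.card τ := Fintype.card_pos_iff.2 ⟨a⟩
    exact ⟨Fintype.card τ - 1, by omega⟩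
  have hCw0 : 0 < Cw := by linarith
  obtain ⟨D', C', θ, K0, hθ, hC', h1⟩ := hFS K τ W' hW' H' c₀ hH' a i1 hia n hn D 2 (δ / (4 * Cw))
    (by norm_num) (by positivity)
  choose η hη hlo using fun i => hfree i D'
  set θ1 := min (1 / 4) θ with hθ1
  have hθ1p : 0 < θ1 := lt_min (by norm_num) hθ
  set K1 := max 4 (4 * K0) with hK1
  have hK4 : 4 ≤ K1 := le_max_left _ _
  have hK0 : 4 * K0 ≤ K1 := le_max_right _ _
  have hPk : ∀ᶠ k in (U : Filter ℕ), K1 ≤ nrs H (y k) ∧ (∀ i, 2 * C' / η i ≤ nrs H (y k)) ∧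
      (∀ i, ¬ Lo (Finset.univ.erase i) D' (η i * nrs H (y k)) (xs (Λ (y k)))) ∧
      δ * nrs H (y k) ≤ hx (Λ (y k) i1) ∧ (∀ j, Λ (y k) j ≠ 0 ∧ ps (Λ (y k) j) ≠ 0) ∧
      Irreducible (g k) ∧ (∀ j, degreeOf j (g k) ≤ D) ∧ eval (xs (Λ (y k))) (g k) = 0 ∧
      NotFlat W' (g k) := by
    have h2 : ∀ᶠ k in (U : Filter ℕ), ∀ i, 2 * C' / η i ≤ nrs H (y k) :=
      Filter.eventually_all.2 fun i => hU.big _
    have h3 : ∀ᶠ k in (U : Filter ℕ), ∀ i,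
        ¬ Lo (Finset.univ.erase i) D' (η i * nrs H (y k)) (xs (Λ (y k))) :=
      Filter.eventually_all.2 hlo
    filter_upwards [hU.big K1, h2, h3, hfast, hnd, hg] with k a1 a2 a3 a4 a5 a6
      using ⟨a1, a2, a3, a4, a5, a6⟩
  have hQk : ∀ᶠ i in (U : Filter ℕ), ∀ᶠ j in (U : Filter ℕ), Pr (nrs H) θ1 K1 (y i) (y j) ∧
      Real.log (PH (g j)) ≤ nrs H (y j) / nrs H (y i) := by
    filter_upwards [hU.al θ1 K1 hθ1p, hU.big 1] with i a1 a2
    filter_upwards [a1, hP (1 / nrs H (y i)) (by positivity)] with j b1 b2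
    refine ⟨b1, b2.trans (le_of_eq ?_)⟩
    ring
  obtain ⟨f, hf1, hf2⟩ := Pool.Agent.Helper83.T3.EXTR.t U _ _ hPk hQk (n + 1)
  obtain ⟨e, hA⟩ := alB (nrs H) hQ n θ K0 θ1 K1 hθ1p (min_le_left _ _) (min_le_right _ _)
    hK4 hK0 y f (fun b hb => (hf1 b hb).1) (fun b b' hbb hb' => (hf2 b b' hbb hb').1)
  have hj2 : ∀ j : Fin n, j.val + 1 ≤ n + 1 := fun j => by have := j.2; omega
  have hNpos : ∀ b ≤ n + 1, 0 < nrs H (y (f b)) := fun b hb => by linarith [(hf1 b hb).1]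
  have hT : 0 < nrs H (y (f (n + 1))) := hNpos _ le_rfl
  have hB : 0 < nrs H (y (f 0)) := hNpos _ (Nat.zero_le _)
  have hQ0 : 0 < nrs H (y (f (n + 1))) / nrs H (y (f 0)) := div_pos hT hB
  have hAl : AlN H' n D i1 θ (δ / (4 * Cw)) 2 K0 (fun j => g (f (j.val + 1))) (g (f (n + 1)))
      (fun j => Λ (y (f (j.val + 1)))) (Λ (y (f (n + 1)))) e (Cw * nrs H (y (f (n + 1))))
      (nrs H (y (f (n + 1))) / nrs H (y (f 0))) := by
    refine ⟨fun j => (hf1 _ (hj2 j)).2.2.2.2.1, (hf1 _ le_rfl).2.2.2.2.1, fun j => ?_, ?_,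
      fun j => ?_, fun j => ?_, fun j => (hf1 _ (hj2 j)).2.2.2.2.2.1, (hf1 _ le_rfl).2.2.2.2.2.1,
      fun j => (hf1 _ (hj2 j)).2.2.2.2.2.2.1, (hf1 _ le_rfl).2.2.2.2.2.2.1, fun j => ?_, ?_,
      fun j => (hf1 _ (hj2 j)).2.2.2.2.2.2.2.1, (hf1 _ le_rfl).2.2.2.2.2.2.2.1, hA.big, hA.le,
      ?_, hA.grow⟩
    · have h2 := hA.up j
      have h3 := mul_le_mul_of_nonneg_left (hΛ (y (f (j.val + 1))))
        (show (0 : ℝ) ≤ 4 ^ e j by positivity)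
      have h4 := mul_le_mul_of_nonneg_left h2 hCw0.le
      nlinarith
    · have h2 := hΛ (y (f (n + 1)))
      have h3 : 0 < Cw * nrs H (y (f (n + 1))) := by positivity
      linarith
    · have h2 := hA.near j
      have h3 := hΛ ((2 ^ e j) • y (f (j.val + 1)) - y (f (n + 1)))
      rw [map_sub, map_nsmul] at h3
      have h4 := mul_le_mul_of_nonneg_left h2 hCw0.le
      refine h3.trans (h4.trans (le_of_eq ?_))
      ring
    · have h2 := (hf1 _ (hj2 j)).2.2.2.1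
      have h3 : (4 : ℝ) ^ e j * (δ * nrs H (y (f (j.val + 1)))) ≤
          4 ^ e j * hx (Λ (y (f (j.val + 1))) i1) :=
        mul_le_mul_of_nonneg_left h2 (by positivity)
      have h4 := mul_le_mul_of_nonneg_left (hA.low j) hδ.le
      have h5 : δ / (4 * Cw) * (Cw * nrs H (y (f (n + 1)))) = δ / 4 * nrs H (y (f (n + 1))) := by
        field_simp
      rw [h5]
      show _ ≤ (4 : ℝ) ^ e j * hx (Λ (y (f (j.val + 1))) i1)
      have h6 : 0 < δ * nrs H (y (f (n + 1))) := by positivity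
      linarith
    · have h2 := (hf2 0 (j.val + 1) (Nat.succ_pos _) (hj2 j)).2
      have h3 := hA.rat' j
      exact h2.trans h3
    · have h2 := (hf2 0 (n + 1) (Nat.succ_pos _) le_rfl).2
      linarith
    · have h2 := hA.bigT
      nlinarith
  have hbnd : ∀ i b, b ≤ n + 1 → 2 * C' * (nrs H (y (f b)) / nrs H (y (f 0))) ≤
      η i * nrs H (y (f b)) := by
    intro i b hb
    have h2 := (hf1 0 (Nat.zero_le _)).2.1 i
    rw [div_le_iff₀ (hη i)] at h2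
    rw [← mul_div_assoc, div_le_iff₀ hB]
    have h3 := mul_le_mul_of_nonneg_right h2 (hNpos b hb).le
    linarith
  obtain ⟨i, hi⟩ := h1 _ _ _ _ _ _ _ (fun j => (hf1 _ (hj2 j)).2.2.2.2.2.2.2.2) hAl
  rcases hi with ⟨j, hj⟩ | h0
  · refine (hf1 _ (hj2 j)).2.2.1 i (Pool.Agent.Helper19.TN.lo_mn hj subset_rfl le_rfl ?_)
    refine le_trans ?_ (hbnd i (j.val + 1) (hj2 j))
    have := mul_le_mul_of_nonneg_left (hA.rat j) hC'
    linarith
  · refine (hf1 _ le_rfl).2.2.1 i (Pool.Agent.Helper19.TN.lo_mn h0 subset_rfl le_rfl ?_)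
    refine le_trans ?_ (hbnd i (n + 1) le_rfl)
    have h2 : 0 ≤ C' * (nrs H (y (f (n + 1))) / nrs H (y (f 0))) := by positivity
    linarith

end

end Pool.Agent.Helper19.TG
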