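import Pool.Agent.Helper19.TG.PRb

/-!
# Project TG (MP_a41896_nt): S_PR, part C (the induction, coefficients in rings)
-/

set_option autoImplicit false

open MvPolynomial

namespace Pool.Agent.Helper19.TG

open WeierstrassCurve Height
open Pool.Agent.Helper29.BL
open Pool.Agent.Helper92.Ru hiding cmb
open Pool.Agent.Helper42.SG
open Pool.Agent.Helper60.HC (Lo nrs xs)
open Pool.Agent.Helper60.T3 (WL zd IP)
open Pool.Agent.Helper42.TG (cmb TFam cmbR TFamR slowP Free GK gl KL S_FLAT)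
open Pool.Agent.Helper42.TN (NonIsog NoCM NotFlat S_FSTEPF AlN)
open Pool.Agent.Helper19.TN (UD Pr AlB alB)

noncomputable section

/-- an element which is not slow -/
theorem fast_of {K : Type} [Field K] [NumberField K] [DecidableEq K] {W : Affine K}
    {H : W.Point → ℝ} {c₀ : ℝ} (hH : CanH W H c₀) {U : Ultrafilter ℕ} {N : ℕ → ℝ}
    (hN : ∀ R : ℝ, ∀ᶠ k in (U : Filter ℕ), R ≤ N k) {s : ℕ → W.Point} (hs : s ∉ slowP U N H) :
    ∃ δ : ℝ, 0 < δ ∧ ∀ᶠ k in (U : Filter ℕ), δ * N k ≤ hx (s k) := by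
  by_contra hno
  refine hs fun η hη => ?_
  by_contra hc
  have hc' := Ultrafilter.eventually_not.2 hc
  refine hno ⟨η / 2, half_pos hη, ?_⟩
  filter_upwards [hc', hN (2 * c₀ / η)] with k h1 h2
  have h3 := abs_le.1 (hH.near (s k))
  have h4 : 2 * c₀ / η * (η / 2) ≤ N k * (η / 2) := mul_le_mul_of_nonneg_right h2 (half_pos hη).le
  have h5 : 2 * c₀ / η * (η / 2) = c₀ := by
    field_simp
  push Not at h1
  linarith [h3.2]

theorem pr_core (hFS : S_FSTEPF) (hPDR : Pool.Agent.Helper42.TN.PDR) (hFL : S_FLAT)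
    {K : Type} [Field K] [NumberField K] [DecidableEq K] {ι : Type} [DecidableEq ι]
    {E : ι → Affine K} (hE : ∀ c, (E c).IsElliptic) {H : ∀ c, (E c).Point → ℝ} {c₀ : ℝ}
    (hH : ∀ c, CanH (E c) (H c) c₀) {R : ι → Type} [∀ c, CommRing (R c)] [∀ c, Nontrivial (R c)]
    (ac : ∀ c, R c →+* AddMonoid.End (E c).Point)
    (hac : ∀ c ρ, ∃ C : ℝ, ∀ P, H c (ac c ρ P) ≤ C * H c P) {σ : Type} [Fintype σ] {cl : σ → ι}
    (hQ : IsQuad (nrs (W := fun i => E (cl i)) fun i => H (cl i)))
    {U : Ultrafilter ℕ} {y : ℕ → ∀ i, (E (cl i)).Point}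
    (hU : UD (W := fun i => E (cl i)) U (nrs fun i => H (cl i)) y)
    {κ L : Type} [Field κ] [Field L] [DecidableEq L] [Algebra (GK K U) L] [Algebra K κ]
    [Algebra κ L] [Algebra K L] [IsScalarTower K κ L] (hκ : IsAlgClosed κ) (hL : IsAlgClosed L)
    (hKL : KL (K := K) U (fun k => nrs (W := fun i => E (cl i)) (fun i => H (cl i)) (y k)) κ L)
    (aL : ∀ c, R c →+* AddMonoid.End (WL L (E c)).Point)
    (φ : ∀ c, (ℕ → (E c).Point) →+ (WL L (E c)).Point)
    (hφ : ∀ c s, xc (φ c s) = gl U L (fun k => xc (s k)) ∧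
      ps (φ c s) = gl U L (fun k => ps (s k)))
    (hφa : ∀ c ρ s, φ c (sq (ac c) ρ s) = aL c ρ (φ c s))
    (hφs : ∀ c s, IP (Set.range (algebraMap κ L)) (φ c s) ↔
      s ∈ slowP U (fun k => nrs (W := fun i => E (cl i)) (fun i => H (cl i)) (y k)) (H c))
    (hlnk : ∀ (τ : Type) [Fintype τ] (s : τ → ℕ → K),
      AlgebraicIndependent κ (fun j => gl U L (s j)) ↔
        Free U (fun k => nrs (W := fun i => E (cl i)) (fun i => H (cl i)) (y k)) s)
    (hclm : ∀ (τ : Type) [Fintype τ] [DecidableEq τ] (cl' : τ → ι),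
      (∀ i k, i ≠ k → cl' i = cl' k → ∃ a b : σ, a ≠ b ∧ cl a = cl' i ∧ cl b = cl' i) →
      ∀ w : ∀ j, (WL L (E (cl' j))).Point,
      TFamR (M := fun c => (WL L (E c)).Point) aL
        (fun c => {P | IP (Set.range (algebraMap κ L)) P}) cl' w →
      (∀ ρ < Fintype.card τ, ∀ (cl'' : Fin ρ → ι) (n : ∀ i : Fin ρ, τ → R (cl'' i)),
        TFamR (M := fun c => (WL L (E c)).Point) aL
          (fun c => {P | IP (Set.range (algebraMap κ L)) P})
          cl'' (fun i => cmbR (M := fun c => (WL L (E c)).Point) aL cl' w (cl'' i) (n i)) →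
        AlgebraicIndependent κ
          (fun i => xc (cmbR (M := fun c => (WL L (E c)).Point) aL cl' w (cl'' i) (n i)))) →
      ¬ AlgebraicIndependent κ (fun j => xc (w j)) →
      ∀ (D : Derivation κ L L) (α : τ → κ),
        (∀ j, D (xc (w j)) = algebraMap κ L (α j) * ps (w j)) → α = 0) :
    ∀ (r : ℕ) (τ : Type) [Fintype τ] [DecidableEq τ], Fintype.card τ = r → ∀ (cl' : τ → ι)
      (w : ∀ j, ℕ → (E (cl' j)).Point),
      (∀ j, w j ∈ Adm (M := fun c => ℕ → (E c).Point) (fun c => sq (ac c)) cl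
        (fun i k => y k i) (cl' j)) →
      TFamR (M := fun c => ℕ → (E c).Point) (fun c => sq (ac c))
        (fun c => slowP U (fun k => nrs (W := fun i => E (cl i)) (fun i => H (cl i)) (y k)) (H c))
        cl' w →
      Free U (fun k => nrs (W := fun i => E (cl i)) (fun i => H (cl i)) (y k))
        (fun j k => xc (w j k)) := by
  set N : ℕ → ℝ := fun k => nrs (W := fun i => E (cl i)) (fun i => H (cl i)) (y k) with hNdef
  have hNb : ∀ R : ℝ, ∀ᶠ k in (U : Filter ℕ), R ≤ N k := hU.big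
  intro r
  induction r using Nat.strong_induction_on with
  | _ r ih =>
  intro τ _ _ hr cl' w hw hTF
  by_contra hnf
  obtain ⟨D, g, hg, hP⟩ := hyper hNb hnf
  -- no points
  rcases isEmpty_or_nonempty τ with hem | hne
  · obtain ⟨k, h1, -, h3⟩ := hg.exists
    obtain ⟨c, hc⟩ : ∃ c, g k = C c := ⟨_, eq_C_of_isEmpty (g k)⟩
    rw [hc, eval_C] at h3
    exact h1.ne_zero (by rw [hc, h3, map_zero])
  -- the subfamilies
  have hsub : ∀ a : τ, Free U N (fun (j : {j : τ // j ≠ a}) k => xc (w j.1 k)) := by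
    intro a
    refine ih _ ?_ {j : τ // j ≠ a} rfl (fun j => cl' j.1) (fun j => w j.1) (fun j => hw _)
      (TFamR.sub hTF _ Subtype.val_injective)
    rw [← hr]
    exact Fintype.card_subtype_lt (x := a) (by simp)
  have hfast : ∀ j, ∃ δ : ℝ, 0 < δ ∧ ∀ᶠ k in (U : Filter ℕ), δ * N k ≤ hx (w j k) := fun j =>
    fast_of (hH _) hNb (TFamR.single_notMem hTF j)
  have hnd : ∀ᶠ k in (U : Filter ℕ), ∀ j, w j k ≠ 0 ∧ ps (w j k) ≠ 0 := by
    refine Filter.eventually_all.2 fun j => ?_
    obtain ⟨δ, hδ, h⟩ := hfast j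
    filter_upwards [h, hNb ((c₀ + 1) / δ)] with k h1 h2
    rw [div_le_iff₀ hδ] at h2
    have := hE (cl' j)
    refine Pool.Agent.Helper79.SGE.ndg Pool.Agent.Helper12.SGB.th_EDUP
      Pool.Agent.Helper12.SGB.th_EUP K (E (cl' j)) (H (cl' j)) c₀ (hH _) (w j k) ?_
    linarith
  -- one point
  rcases subsingleton_or_nontrivial τ with hss | hnt
  · obtain ⟨a⟩ := hne
    obtain ⟨C, hC, hroot⟩ := Pool.Agent.Helper19.TN.root K τ D
    obtain ⟨δ, hδ, h⟩ := hfast a
    obtain ⟨k, ⟨h1, h2⟩, h3, h4⟩ :=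
      ((hg.and (hP (δ / 2) (half_pos hδ))).and (h.and (hNb (2 * (C + 1) / δ)))).exists
    have hlo : Lo {a} D (δ / 2 * N k) (fun j => xc (w j k)) :=
      ⟨g k, h1.1.ne_zero, h1.2.1, fun i hi => absurd (Subsingleton.elim i a) (by simpa using hi),
        h1.2.2, h2⟩
    have h5 := hroot a _ _ hlo
    have h6 : logHeight₁ (xc (w a k)) = hx (w a k) := rfl
    rw [h6] at h5
    rw [div_le_iff₀ hδ] at h4
    linarith
  obtain ⟨i1, a, hia⟩ := exists_pair_ne τ
  have hocc : ∀ᶠ k in (U : Filter ℕ), ∀ j, degreeOf j (g k) ≠ 0 :=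
    Filter.eventually_all.2 fun j => occurs (s := fun j k => xc (w j k)) (hsub j) hg hP
  have hder : ∀ᶠ k in (U : Filter ℕ), eval (fun j => xc (w j k)) (pderiv a (g k)) ≠ 0 :=
    der_ne hPDR hNb (s := fun j k => xc (w j k)) (hsub a) hg hP
  by_cases hNF : ∀ᶠ k in (U : Filter ℕ), NotFlat (fun j => E (cl' j)) (g k)
  · -- the F-step
    choose n hn using fun j => (mem_Adm _).1 (hw j)
    set Λ : (∀ i, (E (cl i)).Point) →+ ∀ j, (E (cl' j)).Point :=
      AddMonoidHom.pi fun j => cmbH (M := fun c => (E c).Point) ac cl (cl' j) (n j) with hΛ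
    have hΛy : ∀ k j, Λ (y k) j = w j k := by
      intro k j
      rw [hn j, cmbR_seq]
      rfl
    choose C hC0 hC using fun j => H_cmbR (E := E) cl (fun c => (hH c).quad) ac hac (cl' j) (n j)
    have hN0 : ∀ z : ∀ i, (E (cl i)).Point, 0 ≤ nrs (W := fun i => E (cl i))
        (fun i => H (cl i)) z := fun z => hQ.nonneg z
    have hbd : ∀ z, nrs (W := fun j => E (cl' j)) (fun j => H (cl' j)) (Λ z) ≤
        (1 + ∑ j, C j) * nrs (W := fun i => E (cl i)) (fun i => H (cl i)) z := by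
      intro z
      have h1 : nrs (W := fun j => E (cl' j)) (fun j => H (cl' j)) (Λ z) ≤
          ∑ j, C j * nrs (W := fun i => E (cl i)) (fun i => H (cl i)) z :=
        Finset.sum_le_sum fun j _ => hC j z
      rw [← Finset.sum_mul] at h1
      have := hN0 z
      linarith
    have hC1 : 0 ≤ ∑ j, C j := Finset.sum_nonneg fun j _ => hC0 j
    obtain ⟨δ, hδ, hf⟩ := hfast i1
    have hxs : ∀ k, xs (Λ (y k)) = fun j => xc (w j k) := by
      intro k
      funext j
      show xc (Λ (y k) j) = _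
      rw [hΛy]
    refine fs_contra hFS hQ hU (fun j => hE (cl' j)) (fun j => hH (cl' j)) Λ (Cw := 1 + ∑ j, C j)
      (by linarith) hbd a i1 hia hδ ?_ ?_ (D := D) (g := g) ?_ hP ?_
    · filter_upwards [hf] with k hk
      rw [hΛy]
      exact hk
    · filter_upwards [hnd] with k hk j
      rw [hΛy]
      exact hk j
    · filter_upwards [hg, hNF] with k hk hk2
      rw [hxs]
      exact ⟨hk.1, hk.2.1, hk.2.2, hk2⟩
    · intro i D'
      obtain ⟨η, hη, h⟩ := free_erase (s := fun j k => xc (w j k)) (hsub i) D'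
      refine ⟨η, hη, ?_⟩
      filter_upwards [h] with k hk
      rw [hxs]
      exact hk
  · -- the flat case
    have hFl := Ultrafilter.eventually_not.2 hNF
    obtain ⟨Dv, α, hα, hDv⟩ := hFL K U N hNb κ L hκ hL hKL τ (fun j => E (cl' j))
      (fun j => hE _) (fun k j => w j k) g D a
      (by
        filter_upwards [hnd, hg, hocc, hder, hFl] with k h1 h2 h3 h4 h5
        exact ⟨h1, h2.1, h2.2.1, h3, h2.2.2, h4, h5⟩)
      hP ((hlnk {j : τ // j ≠ a} (fun j k => xc (w j.1 k))).2 (hsub a))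
    refine hα (hclm τ cl' (fun i k hik hik2 => ?_) (fun j => φ (cl' j) (w j)) ?_ ?_ ?_ Dv α
      fun j => ?_)
    · refine TFamR.repeated (fun c => ?_) hTF hw hik hik2
      rw [← hφs, map_zero]
      exact Or.inl rfl
    · intro c m hm h
      have h1 := cmbR_map (M := fun c => ℕ → (E c).Point) (M' := fun c => (WL L (E c)).Point)
        (fun c => sq (ac c)) aL cl' φ hφa w c m
      rw [← h1] at h
      exact hTF c m hm ((hφs c _).1 h)
    · intro ρ hρ cl'' m hm
      have h1 : ∀ i : Fin ρ, cmbR (M := fun c => (WL L (E c)).Point) aL cl'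
          (fun j => φ (cl' j) (w j)) (cl'' i) (m i) = φ (cl'' i)
            (cmbR (M := fun c => ℕ → (E c).Point) (fun c => sq (ac c)) cl' w (cl'' i) (m i)) :=
        fun i => (cmbR_map (M := fun c => ℕ → (E c).Point) (M' := fun c => (WL L (E c)).Point)
          (fun c => sq (ac c)) aL cl' φ hφa w (cl'' i) (m i)).symm
      have h2 := (hlnk (Fin ρ) (fun i k => xc (cmbR (M := fun c => ℕ → (E c).Point)
        (fun c => sq (ac c)) cl' w (cl'' i) (m i) k))).2 (ih ρ (hr ▸ hρ) (Fin ρ)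
          (Fintype.card_fin ρ) cl'' (fun i => cmbR (M := fun c => ℕ → (E c).Point)
            (fun c => sq (ac c)) cl' w (cl'' i) (m i))
          (fun i => cmbR_mem (M := fun c => ℕ → (E c).Point) (fun c => sq (ac c)) cl
            (fun i k => y k i) cl' w hw (cl'' i) (m i)) ?_)
      · have h3 : (fun i : Fin ρ => xc (cmbR (M := fun c => (WL L (E c)).Point) aL cl'
            (fun j => φ (cl' j) (w j)) (cl'' i) (m i))) = fun i => gl U L (fun k => xc (cmbR
              (M := fun c => ℕ → (E c).Point) (fun c => sq (ac c)) cl' w (cl'' i) (m i) k)) := by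
          funext i
          rw [h1 i]
          exact (hφ _ _).1
        rw [h3]
        exact h2
      · intro c q hq h
        refine hm c q hq ?_
        have h4 := cmbR_map (M := fun c => ℕ → (E c).Point) (M' := fun c => (WL L (E c)).Point)
          (fun c => sq (ac c)) aL cl'' φ hφa (fun i => cmbR (M := fun c => ℕ → (E c).Point)
            (fun c => sq (ac c)) cl' w (cl'' i) (m i)) c q
        have h5 := (hφs c _).2 h
        rw [h4] at h5
        have h6 : (fun i : Fin ρ => cmbR (M := fun c => (WL L (E c)).Point) aL cl'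
            (fun j => φ (cl' j) (w j)) (cl'' i) (m i)) = fun i => φ (cl'' i)
            (cmbR (M := fun c => ℕ → (E c).Point) (fun c => sq (ac c)) cl' w (cl'' i) (m i)) :=
          funext h1
        rw [h6]
        exact h5
    · intro h
      have h3 : (fun j => xc (φ (cl' j) (w j))) = fun j => gl U L (fun k => xc (w j k)) :=
        funext fun j => (hφ _ _).1
      rw [h3] at h
      exact hnf ((hlnk τ (fun j k => xc (w j k))).1 h)
    · rw [(hφ _ _).1, (hφ _ _).2]
      exact hDv j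

end

end Pool.Agent.Helper19.TG
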